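import Pool.Agent.H369R2.TD.Asy
import Pool.Agent.TH485.Uni.Main

/-!
# The constant `1.919` for `t(r+1, r)`

The asymptotic theorem of the determinant codes (`Pool.Agent.H369R2.TD.asymptotic`) is applied with
the explicit systems of `Pool.Agent.TH485.Uni` (`tur_dn`) for the zero sets.
-/

set_option autoImplicit false

open Finset Filter

namespace Pool.Agent.J4.H76.TK

open Pool.Agent.H369R2.TD Pool.Agent.TH485.Uni

/-- the constants `j t(j, j-1)` -/
noncomputable def cc (j : ℕ) : ℝ := (g j : ℝ) / 100000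

theorem cc_eq (m : ℕ) : ((m : ℝ) + 1) * dn m = cc (m + 1) := by
  have h : (0 : ℝ) < (m : ℝ) + 1 := by positivity
  unfold dn cc
  field_simp

theorem g_le (j : ℕ) : g j ≤ 262307 := by
  by_cases h : 64 ≤ j
  · rw [g_big h]; norm_num
  · have h2 : ∀ i < 64, g i ≤ 262307 := by decide
    exact h2 j (by omega)

theorem cc_le (j : ℕ) : cc j ≤ 262307 / 100000 := by
  unfold cc
  have : (g j : ℝ) ≤ 262307 := by exact_mod_cast g_le j
  linarith

theorem exp_up : Real.exp 7 < 109663316 / 100000 := by
  have h1 : Real.exp 7 = Real.exp 1 ^ 7 := by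
    rw [← Real.exp_nat_mul]; norm_num
  rw [h1]
  calc Real.exp 1 ^ 7 < 2.7182818286 ^ 7 := by
        gcongr
        exact Real.exp_one_lt_d9
    _ < _ := by norm_num

theorem exp_lo : 109663315 / 100000 < Real.exp 7 := by
  have h1 : Real.exp 7 = Real.exp 1 ^ 7 := by
    rw [← Real.exp_nat_mul]; norm_num
  rw [h1]
  calc (109663315 / 100000 : ℝ) < 2.7182818283 ^ 7 := by norm_num
    _ < _ := by
        gcongr
        exact Real.exp_one_gt_d9

theorem exp_small : Real.exp (1 / 10000) ≤ 10001 / 10000 + 1 / 100000000 := by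
  have := Real.exp_bound' (x := 1 / 10000) (by norm_num) (by norm_num) (n := 2) (by norm_num)
  refine this.trans ?_
  simp [Finset.sum_range_succ, Nat.factorial]
  norm_num

theorem sum_num : ∑ j ∈ range 32, (cc j - 262307 / 100000) *
    ((70001 / 10000 : ℝ) ^ j / (j.factorial : ℝ)) ≤ - (89616 / 100) := by
  have e : ∀ j, cc j = (g j : ℝ) / 100000 := fun j => rfl
  simp only [Finset.sum_range_succ, Finset.sum_range_zero, e, g, cN, List.getD_cons_zero,
    List.getD_cons_succ]
  norm_num [Nat.factorial]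

theorem psi_num : Real.exp (-7) * Psi 32 cc (262307 / 100000) (70001 / 10000) ≤
    18063 / 10000 := by
  have hE : (0 : ℝ) < Real.exp (-7) := Real.exp_pos _
  have hlow : (100000 : ℝ) / 109663316 ≤ Real.exp (-7) := by
    rw [Real.exp_neg, ← one_div, div_le_div_iff₀ (by norm_num) (Real.exp_pos _)]
    have := exp_up
    linarith
  have hx : Real.exp (-7) * Real.exp (70001 / 10000) = Real.exp (1 / 10000) := by
    rw [← Real.exp_add]; norm_num
  rw [Psi, mul_add]
  have h1 : Real.exp (-7) * (262307 / 100000 * Real.exp (70001 / 10000))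
      = 262307 / 100000 * Real.exp (1 / 10000) := by
    rw [← hx]; ring
  rw [h1]
  have h2 := exp_small
  have h3 : Real.exp (-7) * ∑ j ∈ range 32, (cc j - 262307 / 100000) *
      ((70001 / 10000 : ℝ) ^ j / (j.factorial : ℝ)) ≤ (100000 : ℝ) / 109663316 * (- (89616 / 100)) := by
    nlinarith [sum_num]
  linarith

/-- `t(r+1, r) ≤ 1.919 / (r + 1)` for all large `r` -/
theorem tur_1919 : ∀ᶠ r : ℕ in atTop, Tur r ((1919 / 1000) / ((r : ℝ) + 1)) := by
  have hP : Real.exp (-7) ≤ 91189 / 100000000 := by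
    rw [Real.exp_neg, ← one_div, div_le_div_iff₀ (Real.exp_pos _) (by norm_num)]
    have := exp_lo
    linarith
  refine asymptotic (δ := dn) (c := cc) (J := 32) (K := 262307 / 100000) tur_dn dn_nonneg ?_
    (fun m _ => (cc_eq m).le) (fun m => (cc_eq m).le.trans (cc_le _)) (by norm_num) (y₁ := 7)
    (x₁ := 70001 / 10000) (y₂ := 7) (x₂ := 70001 / 10000) (lam := 9707 / 10000)
    (D₁ := 18063 / 10000) (D₂ := 18063 / 10000)
    (P₁ := 91189 / 100000000) (P₂ := 91189 / 100000000)
    (by norm_num) (by norm_num) (by norm_num) (by norm_num) (by norm_num) (by norm_num)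
    psi_num psi_num hP (by norm_num) hP (by norm_num) ?_
  · unfold cc
    rw [g_zero]
    norm_num
  · norm_num

end Pool.Agent.J4.H76.TK
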